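import Mathlib

namespace Pool.Agent.Results.MP_6c3374_co.PolyUpper

/-- The Euclidean plane. -/
abbrev Plane := EuclideanSpace ℝ (Fin 2)

/-- No three distinct points of `P` are collinear. -/
def GeneralPosition (P : Finset Plane) : Prop :=
  ∀ a ∈ P, ∀ b ∈ P, ∀ c ∈ P, a ≠ b → a ≠ c → b ≠ c → ¬ Collinear ℝ {a, b, c}

/-- Every point of `S` is a vertex of the convex hull of `S`:
no point of `S` lies in the convex hull of the other points of `S`. -/
def ConvexPosition (S : Finset Plane) : Prop :=
  ∀ v ∈ S, v ∉ convexHull ℝ ((S : Set Plane) \ {v})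

/-- All pairs of distinct points of `S` have the same colour under `c`. -/
def Monochromatic (c : Sym2 Plane → Bool) (S : Finset Plane) : Prop :=
  ∃ col : Bool, ∀ a ∈ S, ∀ b ∈ S, a ≠ b → c s(a, b) = col

/-- Every set of `n` points in general position, with its pairs coloured by two colours,
contains `p` points in convex position all of whose pairs have the same colour. -/
def Forces (p n : ℕ) : Prop :=
  ∀ P : Finset Plane, P.card = n → GeneralPosition P → ∀ c : Sym2 Plane → Bool,
    ∃ S : Finset Plane, S ⊆ P ∧ S.card = p ∧ ConvexPosition S ∧ Monochromatic c S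

/-- The least `n` such that `Forces p n`. -/
noncomputable def g (p : ℕ) : ℕ := sInf {n | Forces p n}

/-! ### Orientation and the lexicographic order -/

/-- Orientation determinant. -/
def cr (a b c : Plane) : ℝ := (b 0 - a 0) * (c 1 - a 1) - (b 1 - a 1) * (c 0 - a 0)

/-- Lexicographic key. -/
def key (a : Plane) : ℝ ×ₗ ℝ := toLex (a 0, a 1)

lemma key_lt {a b : Plane} : key a < key b ↔ a 0 < b 0 ∨ (a 0 = b 0 ∧ a 1 < b 1) := by
  unfold key
  exact Prod.Lex.toLex_lt_toLex

lemma key_inj {a b : Plane} (h : key a = key b) : a = b := by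
  unfold key at h
  have h' := toLex.injective h
  simp only [Prod.mk.injEq] at h'
  ext i
  fin_cases i
  · exact h'.1
  · exact h'.2

/-- Cross product positivity is transitive on the half-open half plane. -/
lemma cross_trans_pos {u0 u1 v0 v1 w0 w1 : ℝ}
    (hu : 0 < u0 ∨ (0 = u0 ∧ 0 < u1)) (hv : 0 < v0 ∨ (0 = v0 ∧ 0 < v1))
    (hw : 0 < w0 ∨ (0 = w0 ∧ 0 < w1))
    (h1 : 0 < u0 * v1 - u1 * v0) (h2 : 0 < v0 * w1 - v1 * w0) :
    0 < u0 * w1 - u1 * w0 := by
  have id0 : (u0 * w1 - u1 * w0) * v0 = (u0 * v1 - u1 * v0) * w0 + (v0 * w1 - v1 * w0) * u0 := by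
    ring
  rcases hv with hv | ⟨hv0, hv1⟩
  · have hu0 : 0 < u0 := by
      rcases hu with hu | ⟨hu0, hu1⟩
      · exact hu
      · exfalso
        rw [← hu0] at h1
        nlinarith [mul_pos hu1 hv]
    have hw0 : 0 ≤ w0 := by
      rcases hw with hw | ⟨hw0, _⟩
      · exact hw.le
      · exact hw0.le
    have : 0 < (u0 * w1 - u1 * w0) * v0 := by
      rw [id0]
      have := mul_nonneg h1.le hw0
      have := mul_pos h2 hu0
      linarith
    exact (pos_iff_pos_of_mul_pos this).mpr hv
  · exfalso
    rw [← hv0] at h2
    rcases hw with hw | ⟨hw0, hw1⟩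
    · nlinarith [mul_pos hv1 hw]
    · rw [← hw0] at h2
      linarith

lemma cross_trans_neg {u0 u1 v0 v1 w0 w1 : ℝ}
    (hu : 0 < u0 ∨ (0 = u0 ∧ 0 < u1)) (hv : 0 < v0 ∨ (0 = v0 ∧ 0 < v1))
    (hw : 0 < w0 ∨ (0 = w0 ∧ 0 < w1))
    (h1 : u0 * v1 - u1 * v0 < 0) (h2 : v0 * w1 - v1 * w0 < 0) :
    u0 * w1 - u1 * w0 < 0 := by
  have := cross_trans_pos hw hv hu (by linarith : 0 < w0 * v1 - w1 * v0) (by linarith)
  linarith

lemma half_of_key {a b : Plane} (h : key a < key b) :
    0 < b 0 - a 0 ∨ (0 = b 0 - a 0 ∧ 0 < b 1 - a 1) := by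
  rw [key_lt] at h
  rcases h with h | ⟨h0, h1⟩
  · left; linarith
  · right; exact ⟨by linarith, by linarith⟩

lemma cr_eq (a b c : Plane) :
    cr a b c = (b 0 - a 0) * (c 1 - b 1) - (b 1 - a 1) * (c 0 - b 0) := by
  unfold cr; ring

lemma cr_cyc (a b c : Plane) : cr a b c = cr c a b := by
  unfold cr; ring

lemma cr_swap (a b c : Plane) : cr a b c = - cr a c b := by
  unfold cr; ring

/-- Transitivity for positively oriented triples. -/
lemma trans_pos {a b c d : Plane} (hab : key a < key b) (hbc : key b < key c)
    (hcd : key c < key d) (h1 : 0 < cr a b c) (h2 : 0 < cr b c d) :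
    0 < cr a c d := by
  have hu := half_of_key hab
  have hv := half_of_key hbc
  have hw := half_of_key hcd
  rw [cr_eq] at h1 h2
  have h3 := cross_trans_pos hu hv hw h1 h2
  have : cr a c d = ((b 0 - a 0) * (d 1 - c 1) - (b 1 - a 1) * (d 0 - c 0))
      + ((c 0 - b 0) * (d 1 - c 1) - (c 1 - b 1) * (d 0 - c 0)) := by
    unfold cr; ring
  rw [this]
  linarith

lemma trans_neg {a b c d : Plane} (hab : key a < key b) (hbc : key b < key c)
    (hcd : key c < key d) (h1 : cr a b c < 0) (h2 : cr b c d < 0) :
    cr a c d < 0 := by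
  have hu := half_of_key hab
  have hv := half_of_key hbc
  have hw := half_of_key hcd
  rw [cr_eq] at h1 h2
  have h3 := cross_trans_neg hu hv hw h1 h2
  have : cr a c d = ((b 0 - a 0) * (d 1 - c 1) - (b 1 - a 1) * (d 0 - c 0))
      + ((c 0 - b 0) * (d 1 - c 1) - (c 1 - b 1) * (d 0 - c 0)) := by
    unfold cr; ring
  rw [this]
  linarith

/-- The sector property. -/
lemma sector {a a' b c c' : Plane} (hab : key a < key b) (ha'b : key a' < key b)
    (hbc : key b < key c) (hbc' : key b < key c')
    (h1 : 0 < cr a b c) (h2 : cr a' b c < 0) (h3 : 0 < cr a' b c') :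
    0 < cr a b c' := by
  have hu := half_of_key hab
  have hu' := half_of_key ha'b
  have hv := half_of_key hbc
  have hv' := half_of_key hbc'
  rw [cr_eq] at h1 h2 h3 ⊢
  have h2' : 0 < (c 0 - b 0) * (b 1 - a' 1) - (c 1 - b 1) * (b 0 - a' 0) := by linarith
  have h4 := cross_trans_pos hu hv hu' h1 h2'
  exact cross_trans_pos hu hu' hv' h4 h3

/-- If the orientation determinant vanishes the points are collinear. -/
lemma collinear_of_cr {a b c : Plane} (hab : a ≠ b) (h : cr a b c = 0) :
    Collinear ℝ {a, b, c} := by
  rw [collinear_iff_of_mem (p₀ := a) (by simp)]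
  refine ⟨b - a, ?_⟩
  have hne : b 0 - a 0 ≠ 0 ∨ b 1 - a 1 ≠ 0 := by
    by_contra hcon
    push Not at hcon
    apply hab
    ext i
    fin_cases i
    · simp; linarith [hcon.1]
    · simp; linarith [hcon.2]
  intro q hq
  simp only [Set.mem_insert_iff, Set.mem_singleton_iff] at hq
  rcases hq with rfl | rfl | rfl
  · exact ⟨0, by simp⟩
  · exact ⟨1, by simp⟩
  · unfold cr at h
    rcases hne with h0 | h1
    · refine ⟨(q 0 - a 0) / (b 0 - a 0), ?_⟩
      ext i
      fin_cases i
      · simp; field_simp; ring
      · simp; field_simp; linarith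
    · refine ⟨(q 1 - a 1) / (b 1 - a 1), ?_⟩
      ext i
      fin_cases i
      · simp; field_simp; linarith
      · simp; field_simp; ring

/-! ### A criterion for convex position -/

/-- A point on the boundary of an open half plane together with one other boundary point. -/
lemma not_mem_hull_of_line {S : Set Plane} {u v : Plane} (huv : u ≠ v) (e : ℝ)
    (h : ∀ w ∈ S, w ≠ u → w ≠ v → 0 < e * cr u v w) :
    v ∉ convexHull ℝ (S \ {v}) := by
  intro hv
  have hsub : convexHull ℝ (S \ {v}) ⊆ {w : Plane | w = u ∨ 0 < e * cr u v w} := by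
    apply convexHull_min
    · intro w hw
      by_cases hwu : w = u
      · left; exact hwu
      · right; exact h w hw.1 hwu (by simpa using hw.2)
    · intro x hx y hy s t hs ht hst
      have key1 : e * cr u v (s • x + t • y)
          = s * (e * cr u v x) + t * (e * cr u v y) := by
        have ht' : t = 1 - s := by linarith
        subst ht'
        unfold cr
        simp only [PiLp.add_apply, PiLp.smul_apply, smul_eq_mul]
        ring
      have hu0 : cr u v u = 0 := by unfold cr; ring
      rcases hx with hx | hx <;> rcases hy with hy | hy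
      · left
        rw [hx, hy, ← add_smul, hst, one_smul]
      · rcases ht.lt_or_eq with ht0 | ht0
        · right
          show 0 < _
          rw [key1, hx, hu0]
          have := mul_pos ht0 hy
          linarith
        · left
          have hs1 : s = 1 := by linarith
          rw [← ht0, hs1, hx]; simp
      · rcases hs.lt_or_eq with hs0 | hs0
        · right
          show 0 < _
          rw [key1, hy, hu0]
          have := mul_pos hs0 hx
          linarith
        · left
          have ht1 : t = 1 := by linarith
          rw [← hs0, ht1, hy]; simp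
      · right
        show 0 < _
        rw [key1]
        rcases hs.lt_or_eq with hs0 | hs0
        · have h1 := mul_pos hs0 hx
          have h2 := mul_nonneg ht hy.le
          linarith
        · have ht1 : t = 1 := by linarith
          rw [← hs0, ht1]; linarith
  rcases hsub hv with h1 | h1
  · exact huv h1.symm
  · have : cr u v v = 0 := by unfold cr; ring
    rw [this] at h1
    simp at h1

/-- The lexicographically smallest point is a vertex of the hull. -/
lemma not_mem_hull_of_min {S : Set Plane} {v : Plane}
    (h : ∀ w ∈ S, w ≠ v → key v < key w) :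
    v ∉ convexHull ℝ (S \ {v}) := by
  intro hv
  have hsub : convexHull ℝ (S \ {v}) ⊆ {w : Plane | key v < key w} := by
    apply convexHull_min
    · intro w hw
      exact h w hw.1 (by simpa using hw.2)
    · intro x hx y hy s t hs ht hst
      simp only [Set.mem_ofPred_eq, key_lt] at hx hy ⊢
      simp only [PiLp.add_apply, PiLp.smul_apply, smul_eq_mul]
      have ht' : t = 1 - s := by linarith
      rcases hs.lt_or_eq with hs0 | hs0
      · rcases ht.lt_or_eq with ht0 | ht0
        · rcases hx with hx | ⟨hx0, hx1⟩ <;> rcases hy with hy | ⟨hy0, hy1⟩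
          · left; subst ht'; nlinarith [mul_pos hs0 (sub_pos.mpr hx), mul_pos ht0 (sub_pos.mpr hy)]
          · left; subst ht'; rw [← hy0]; nlinarith [mul_pos hs0 (sub_pos.mpr hx)]
          · left; subst ht'; rw [← hx0]; nlinarith [mul_pos ht0 (sub_pos.mpr hy)]
          · right
            subst ht'
            constructor
            · rw [← hx0, ← hy0]; ring
            · nlinarith [mul_pos hs0 (sub_pos.mpr hx1), mul_pos ht0 (sub_pos.mpr hy1)]
        · have hs1 : s = 1 := by linarith
          rw [← ht0, hs1]; simpa using hx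
      · have ht1 : t = 1 := by linarith
        rw [← hs0, ht1]; simpa using hy
  have h0 : key v < key v := hsub hv
  exact lt_irrefl _ h0

/-- If the orientation of a lexicographically increasing triple depends only on its middle
point, then the set is in convex position. -/
lemma convexPosition_of_mid (S : Finset Plane) (om : Plane → Prop)
    (hpos : ∀ a ∈ S, ∀ b ∈ S, ∀ c ∈ S, key a < key b → key b < key c → om b → 0 < cr a b c)
    (hneg : ∀ a ∈ S, ∀ b ∈ S, ∀ c ∈ S, key a < key b → key b < key c → ¬ om b → cr a b c < 0) :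
    ConvexPosition S := by
  classical
  intro v hv
  by_cases hmin : ∀ w ∈ S, w ≠ v → key v < key w
  · exact not_mem_hull_of_min hmin
  push Not at hmin
  obtain ⟨w0, hw0S, hw0v, hw0⟩ := hmin
  have hw0lt : key w0 < key v := lt_of_le_of_ne hw0 (fun h => hw0v (key_inj h))
  -- the minimum
  obtain ⟨m, hmS, hm⟩ := S.exists_min_image key ⟨v, hv⟩
  have hmv : key m < key v := lt_of_le_of_lt (hm w0 hw0S) hw0lt
  -- the predecessor in the same chain
  obtain ⟨u, huF, hu⟩ := (S.filter (fun x => key x < key v ∧ (x = m ∨ (om x ↔ om v)))).exists_max_image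
    key ⟨m, by simp [hmS, hmv]⟩
  simp only [Finset.mem_filter] at huF hu
  obtain ⟨huS, huv, huc⟩ := huF
  have huv' : u ≠ v := fun h => by rw [h] at huv; exact lt_irrefl _ huv
  have hcases : ∀ w ∈ S, w ≠ u → w ≠ v →
      (om v → 0 < cr u v w) ∧ (¬ om v → cr u v w < 0) := by
    intro w hwS hwu hwv
    rcases lt_trichotomy (key w) (key v) with h1 | h1 | h1
    · rcases lt_trichotomy (key w) (key u) with h2 | h2 | h2
      · have hum : u ≠ m := fun h => by
          rw [h] at h2; exact absurd h2 (not_lt.mpr (hm w hwS))
        have hom : om u ↔ om v := huc.resolve_left hum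
        constructor
        · intro ho
          rw [cr_cyc u v w]
          exact hpos w hwS u huS v hv h2 huv (hom.mpr ho)
        · intro ho
          rw [cr_cyc u v w]
          exact hneg w hwS u huS v hv h2 huv (fun h => ho (hom.mp h))
      · exact absurd (key_inj h2) hwu
      · have hnot : ¬ (w = m ∨ (om w ↔ om v)) := by
          intro hcon
          exact absurd (hu w ⟨hwS, h1, hcon⟩) (not_le.mpr h2)
        push Not at hnot
        obtain ⟨_, hiff⟩ := hnot
        constructor
        · intro ho
          have hwn : ¬ om w := by tauto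
          rw [cr_swap]
          have := hneg u huS w hwS v hv h2 h1 hwn
          linarith
        · intro ho
          have hwn : om w := by tauto
          rw [cr_swap]
          have := hpos u huS w hwS v hv h2 h1 hwn
          linarith
    · exact absurd (key_inj h1) hwv
    · exact ⟨hpos u huS v hv w hwS huv h1, hneg u huS v hv w hwS huv h1⟩
  by_cases hom : om v
  · apply not_mem_hull_of_line huv' 1
    intro w hwS hwu hwv
    have := (hcases w hwS hwu hwv).1 hom
    linarith
  · apply not_mem_hull_of_line huv' (-1)
    intro w hwS hwu hwv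
    have := (hcases w hwS hwu hwv).2 hom
    linarith

/-! ### A strengthening of the monotone subsequence theorem -/

section Chains

variable {α β : Type*} [LinearOrder β]

open Classical in
/-- A transitive two-colouring of the pairs of a set of more than `m (m - 1) / 2` elements has a
subset of at least `m` elements on which the colour of a pair depends only on the later
element. -/
lemma exists_fan (f : α → β) (hf : Function.Injective f) (M : Finset α) (o : α → α → Prop) (m : ℕ)
    (hpos : ∀ a ∈ M, ∀ b ∈ M, ∀ c ∈ M, f a < f b → f b < f c → o a b → o b c → o a c)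
    (hneg : ∀ a ∈ M, ∀ b ∈ M, ∀ c ∈ M, f a < f b → f b < f c → ¬ o a b → ¬ o b c → ¬ o a c)
    (hM : m * (m - 1) / 2 < M.card) :
    ∃ H : Finset α, H ⊆ M ∧ m ≤ H.card ∧ ∃ om : α → Prop,
      ∀ a ∈ H, ∀ b ∈ H, f a < f b → (o a b ↔ om b) := by
  -- chains of type `q` starting at `a`
  let Ch : (α → α → Prop) → α → Finset (Finset α) := fun q a =>
    M.powerset.filter (fun C => a ∈ C ∧ (∀ b ∈ C, f a ≤ f b) ∧
      ∀ b ∈ C, ∀ c ∈ C, f b < f c → q b c)
  let L : (α → α → Prop) → α → ℕ := fun q a => (Ch q a).sup Finset.card
  have hCh : ∀ q a C, C ∈ Ch q a ↔ (C ⊆ M ∧ a ∈ C ∧ (∀ b ∈ C, f a ≤ f b) ∧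
      ∀ b ∈ C, ∀ c ∈ C, f b < f c → q b c) := by
    intro q a C
    simp only [Ch, Finset.mem_filter, Finset.mem_powerset]
  have hne : ∀ q, ∀ a ∈ M, (Ch q a).Nonempty := by
    intro q a ha
    refine ⟨{a}, ?_⟩
    rw [hCh]
    refine ⟨by simpa using ha, by simp, by simp, ?_⟩
    intro b hb c hc hbc
    simp only [Finset.mem_singleton] at hb hc
    subst hb; subst hc
    exact absurd hbc (lt_irrefl _)
  have hex : ∀ q, ∀ a ∈ M, ∃ C ∈ Ch q a, L q a = C.card := by
    intro q a ha
    exact Finset.exists_mem_eq_sup _ (hne q a ha) _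
  have hle : ∀ q a C, C ∈ Ch q a → C.card ≤ L q a := by
    intro q a C hC
    exact Finset.le_sup (f := Finset.card) hC
  have hone : ∀ q, ∀ a ∈ M, 1 ≤ L q a := by
    intro q a ha
    obtain ⟨C, hC, hcard⟩ := hex q a ha
    rw [hcard]
    rw [hCh] at hC
    exact Finset.card_pos.mpr ⟨a, hC.2.1⟩
  have hstep : ∀ q : α → α → Prop,
      (∀ a ∈ M, ∀ b ∈ M, ∀ c ∈ M, f a < f b → f b < f c → q a b → q b c → q a c) →
      ∀ a ∈ M, ∀ b ∈ M, f a < f b → q a b → L q b + 1 ≤ L q a := by
    intro q hq a ha b hb hab hqab
    obtain ⟨C, hC, hcard⟩ := hex q b hb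
    rw [hCh] at hC
    obtain ⟨hCM, hbC, hmin, hchain⟩ := hC
    have haC : a ∉ C := fun h => absurd (hmin a h) (not_le.mpr hab)
    have hins : insert a C ∈ Ch q a := by
      rw [hCh]
      refine ⟨?_, by simp, ?_, ?_⟩
      · intro x hx
        rcases Finset.mem_insert.mp hx with rfl | hx
        · exact ha
        · exact hCM hx
      · intro x hx
        rcases Finset.mem_insert.mp hx with rfl | hx
        · exact le_refl _
        · exact hab.le.trans (hmin x hx)
      · intro x hx y hy hxy
        rcases Finset.mem_insert.mp hx with hxa | hxC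
        · rcases Finset.mem_insert.mp hy with hya | hyC
          · rw [hxa, hya] at hxy
            exact absurd hxy (lt_irrefl _)
          · rw [hxa]
            by_cases hyb : y = b
            · rw [hyb]; exact hqab
            · have hby : f b < f y := lt_of_le_of_ne (hmin y hyC) (fun h => hyb (hf h).symm)
              exact hq a ha b hb y (hCM hyC) hab hby hqab (hchain b hbC y hyC hby)
        · rcases Finset.mem_insert.mp hy with hya | hyC
          · rw [hya] at hxy
            exact absurd (lt_trans hxy hab) (not_lt.mpr (hmin x hxC))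
          · exact hchain x hxC y hyC hxy
    have := hle q a _ hins
    rw [Finset.card_insert_of_notMem haC] at this
    omega
  have hstep1 := hstep o hpos
  have hstep2 := hstep (fun a b => ¬ o a b) hneg
  -- a point with long chains of both types
  have hkey : ∃ a ∈ M, m + 1 ≤ L o a + L (fun a b => ¬ o a b) a := by
    by_contra hcon
    push Not at hcon
    let T : Finset (Σ _ : ℕ, ℕ) := (Finset.range m).sigma (fun v => Finset.range v)
    have hT : T.card = m * (m - 1) / 2 := by
      simp only [T, Finset.card_sigma, Finset.card_range]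
      exact Finset.sum_range_id m
    let F : α → (Σ _ : ℕ, ℕ) := fun a =>
      ⟨L o a + L (fun a b => ¬ o a b) a - 1, L o a - 1⟩
    have hmaps : ∀ a ∈ M, F a ∈ T := by
      intro a ha
      have h1 := hone o a ha
      have h2 := hone (fun a b => ¬ o a b) a ha
      have h3 := hcon a ha
      simp only [F, T, Finset.mem_sigma, Finset.mem_range]
      omega
    have hinj : Set.InjOn F M := by
      intro a ha b hb hab
      by_contra hne'
      have ha' : a ∈ M := ha
      have hb' : b ∈ M := hb
      simp only [F, Sigma.mk.injEq, heq_eq_eq] at hab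
      have h1 := hone o a ha
      have h2 := hone (fun a b => ¬ o a b) a ha
      have h1' := hone o b hb
      have h2' := hone (fun a b => ¬ o a b) b hb
      have e1 : L o a = L o b := by omega
      have e2 : L (fun a b => ¬ o a b) a = L (fun a b => ¬ o a b) b := by omega
      rcases lt_trichotomy (f a) (f b) with h | h | h
      · by_cases ho : o a b
        · have := hstep1 a ha' b hb' h ho; omega
        · have := hstep2 a ha' b hb' h ho; omega
      · exact hne' (hf h)
      · by_cases ho : o b a
        · have := hstep1 b hb' a ha' h ho; omega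
        · have := hstep2 b hb' a ha' h ho; omega
    have := Finset.card_le_card_of_injOn F hmaps hinj
    omega
  obtain ⟨a, ha, hsum⟩ := hkey
  obtain ⟨C, hC, hCc⟩ := hex o a ha
  obtain ⟨D, hD, hDc⟩ := hex (fun a b => ¬ o a b) a ha
  rw [hCh] at hC hD
  obtain ⟨hCM, haC, hCmin, hCch⟩ := hC
  obtain ⟨hDM, haD, hDmin, hDch⟩ := hD
  have hltC : ∀ x ∈ C, x ≠ a → f a < f x := fun x hx hxa =>
    lt_of_le_of_ne (hCmin x hx) (fun h => hxa (hf h).symm)
  have hltD : ∀ x ∈ D, x ≠ a → f a < f x := fun x hx hxa =>
    lt_of_le_of_ne (hDmin x hx) (fun h => hxa (hf h).symm)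
  have hinter : C ∩ D ⊆ {a} := by
    intro x hx
    rw [Finset.mem_inter] at hx
    rw [Finset.mem_singleton]
    by_contra hxa
    exact hDch a haD x hx.2 (hltD x hx.2 hxa) (hCch a haC x hx.1 (hltC x hx.1 hxa))
  refine ⟨C ∪ D, Finset.union_subset hCM hDM, ?_, fun x => o a x, ?_⟩
  · have h1 := Finset.card_union_add_card_inter C D
    have h2 : (C ∩ D).card ≤ 1 := by
      calc (C ∩ D).card ≤ ({a} : Finset α).card := Finset.card_le_card hinter
        _ = 1 := by simp
    omega
  · intro x hx y hy hxy
    have hxM : x ∈ M := Finset.union_subset hCM hDM hx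
    have hyM : y ∈ M := Finset.union_subset hCM hDM hy
    by_cases hxa : x = a
    · rw [hxa]
    have hax : f a < f x := by
      rcases Finset.mem_union.mp hx with h | h
      · exact hltC x h hxa
      · exact hltD x h hxa
    have hya : y ≠ a := fun h => by
      rw [h] at hxy; exact absurd (lt_trans hax hxy) (lt_irrefl _)
    rcases Finset.mem_union.mp hx with hxC | hxD <;> rcases Finset.mem_union.mp hy with hyC | hyD
    · exact ⟨fun _ => hCch a haC y hyC (hltC y hyC hya), fun _ => hCch x hxC y hyC hxy⟩
    · have hoax := hCch a haC x hxC hax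
      have hnoay := hDch a haD y hyD (hltD y hyD hya)
      exact ⟨fun h => hpos a ha x hxM y hyM hax hxy hoax h, fun h => absurd h hnoay⟩
    · have hnoax := hDch a haD x hxD hax
      have hoay := hCch a haC y hyC (hltC y hyC hya)
      refine ⟨fun _ => hoay, fun _ => ?_⟩
      by_contra h
      exact hneg a ha x hxM y hyM hax hxy hnoax h hoay
    · have hnoxy := hDch x hxD y hyD hxy
      have hnoay := hDch a haD y hyD (hltD y hyD hya)
      exact ⟨fun h => absurd h hnoxy, fun h => absurd h hnoay⟩

/-! ### The greedy selection -/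

/-- Number of points needed for `k` further steps after `j` steps. -/
def need : ℕ → ℕ → ℕ
  | 0, _ => 1
  | k + 1, j => 2 * (j + 1) * need k (j + 1)

lemma need_pos (k j : ℕ) : 0 < need k j := by
  induction k generalizing j with
  | zero => simp [need]
  | succ k ih => simp only [need]; have := ih (j + 1); positivity

lemma need_eq (k j : ℕ) : need k j * j.factorial = 2 ^ k * (j + k).factorial := by
  induction k generalizing j with
  | zero => simp [need]
  | succ k ih =>
    have h := ih (j + 1)
    rw [Nat.factorial_succ] at h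
    simp only [need]
    calc 2 * (j + 1) * need k (j + 1) * j.factorial
        = 2 * (need k (j + 1) * ((j + 1) * j.factorial)) := by ring
      _ = 2 * (2 ^ k * (j + 1 + k).factorial) := by rw [h]
      _ = 2 ^ (k + 1) * (j + (k + 1)).factorial := by
          rw [show j + 1 + k = j + (k + 1) by ring]; ring

open Classical in
lemma greedy [DecidableEq α] (f : α → β) (hf : Function.Injective f) (P : Finset α) (O : α → α → α → Prop)
    (c : α → α → Bool)
    (hsec : ∀ a ∈ P, ∀ a' ∈ P, ∀ b ∈ P, ∀ y ∈ P, ∀ y' ∈ P, f a < f b → f a' < f b →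
      f b < f y → f b < f y' → O a b y → ¬ O a' b y → O a' b y' → O a b y')
    (k : ℕ) : ∀ (j : ℕ) (prev A : Finset α), prev ⊆ P → A ⊆ P → prev.card ≤ j →
      (∀ a ∈ prev, ∀ y ∈ A, f a < f y) → need k j ≤ A.card →
      ∃ (X : Finset α) (z : α) (χ : α → Bool) (o : α → α → Prop),
        X ⊆ A ∧ z ∈ A ∧ X.card = k ∧ (∀ x ∈ X, f x < f z) ∧
        (∀ x ∈ X, ∀ y ∈ insert z X, f x < f y → c x y = χ x) ∧
        (∀ a ∈ prev ∪ X, ∀ b ∈ X, ∀ y ∈ insert z X, f a < f b → f b < f y →
          (O a b y ↔ o a b)) := by
  induction k with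
  | zero =>
    intro j prev A hprev hA _ _ hcard
    simp only [need] at hcard
    obtain ⟨z, hz⟩ := Finset.card_pos.mp (by omega : 0 < A.card)
    exact ⟨∅, z, fun _ => true, fun _ _ => True, by simp, hz, by simp, by simp, by simp, by simp⟩
  | succ k ih =>
    intro j prev A hprev hA hpc hlt hcard
    simp only [need] at hcard
    have hN := need_pos k (j + 1)
    have hApos : 0 < A.card := by
      have : 0 < 2 * (j + 1) * need k (j + 1) := by positivity
      omega
    obtain ⟨x, hxA, hxmin⟩ := A.exists_min_image f (Finset.card_pos.mp hApos)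
    let B := A.erase x
    have hBlt : ∀ y ∈ B, f x < f y := by
      intro y hy
      have hy' := Finset.mem_erase.mp hy
      exact lt_of_le_of_ne (hxmin y hy'.2) (fun h => hy'.1 (hf h).symm)
    let cls : α → Bool × ℕ := fun y => (c x y, (prev.filter (fun a => O a x y)).card)
    let T : Finset (Bool × ℕ) := Finset.univ ×ˢ Finset.range (j + 1)
    have hT : T.card = 2 * (j + 1) := by simp [T]
    have hmaps : ∀ y ∈ B, cls y ∈ T := by
      intro y _
      simp only [cls, T, Finset.mem_product, Finset.mem_univ, true_and, Finset.mem_range]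
      have := Finset.card_filter_le prev (fun a => O a x y)
      omega
    have hBcard : B.card = A.card - 1 := Finset.card_erase_of_mem hxA
    have hmul : T.card * (need k (j + 1) - 1) < B.card := by
      rw [hT, hBcard]
      have h1 : 2 * (j + 1) * (need k (j + 1) - 1) = 2 * (j + 1) * need k (j + 1) - 2 * (j + 1) := by
        rw [Nat.mul_sub, Nat.mul_one]
      rw [h1]
      have h2 : 2 * (j + 1) ≤ 2 * (j + 1) * need k (j + 1) := Nat.le_mul_of_pos_right _ hN
      omega
    obtain ⟨t, _, ht⟩ := Finset.exists_lt_card_fiber_of_mul_lt_card_of_maps_to hmaps hmul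
    let A' := B.filter (fun y => cls y = t)
    have hA'card : need k (j + 1) ≤ A'.card := by
      have : need k (j + 1) - 1 < A'.card := ht
      omega
    have hA'B : A' ⊆ B := Finset.filter_subset _ _
    have hBA : B ⊆ A := Finset.erase_subset _ _
    have hA'A : A' ⊆ A := hA'B.trans hBA
    obtain ⟨y0, hy0⟩ := Finset.card_pos.mp (lt_of_lt_of_le hN hA'card)
    -- the orientation is constant on the class
    have hconst : ∀ y ∈ A', ∀ a ∈ prev, (O a x y ↔ O a x y0) := by
      intro y hy a ha
      have e1 : (prev.filter (fun a => O a x y)).card = (prev.filter (fun a => O a x y0)).card := by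
        have h1 : cls y = t := (Finset.mem_filter.mp hy).2
        have h2 : cls y0 = t := (Finset.mem_filter.mp hy0).2
        have h3 : cls y = cls y0 := h1.trans h2.symm
        exact congrArg Prod.snd h3
      have hxP := hA hxA
      have hyP := hA (hA'A hy)
      have hy0P := hA (hA'A hy0)
      have hxy := hBlt y (hA'B hy)
      have hxy0 := hBlt y0 (hA'B hy0)
      have hsets : prev.filter (fun a => O a x y) = prev.filter (fun a => O a x y0) := by
        by_cases hsub : prev.filter (fun a => O a x y) ⊆ prev.filter (fun a => O a x y0)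
        · exact Finset.eq_of_subset_of_card_le hsub e1.ge
        · obtain ⟨a', ha'1, ha'2⟩ := Finset.not_subset.mp hsub
          rw [Finset.mem_filter] at ha'1
          have ha'3 : ¬ O a' x y0 := fun h => ha'2 (Finset.mem_filter.mpr ⟨ha'1.1, h⟩)
          have hsub' : prev.filter (fun a => O a x y0) ⊆ prev.filter (fun a => O a x y) := by
            intro b hb
            rw [Finset.mem_filter] at hb ⊢
            refine ⟨hb.1, ?_⟩
            exact hsec b (hprev hb.1) a' (hprev ha'1.1) x hxP y0 hy0P y hyP
              (hlt b hb.1 x hxA) (hlt a' ha'1.1 x hxA) hxy0 hxy hb.2 ha'3 ha'1.2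
          exact (Finset.eq_of_subset_of_card_le hsub' e1.le).symm
      have hmem : a ∈ prev.filter (fun a => O a x y) ↔ a ∈ prev.filter (fun a => O a x y0) := by
        rw [hsets]
      simpa [ha] using hmem
    obtain ⟨X, z, χ, o, hXA, hzA, hXc, hXz, hXχ, hXo⟩ :=
      ih (j + 1) (insert x prev) A'
        (by
          intro a ha
          rcases Finset.mem_insert.mp ha with rfl | ha
          · exact hA hxA
          · exact hprev ha)
        (hA'A.trans hA)
        (by have := Finset.card_insert_le x prev; omega)
        (by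
          intro a ha y hy
          rcases Finset.mem_insert.mp ha with rfl | ha
          · exact hBlt y (hA'B hy)
          · exact hlt a ha y (hA'A hy))
        hA'card
    have hxX : x ∉ X := fun h => by
      have := hA'B (hXA h)
      exact (Finset.mem_erase.mp this).1 rfl
    have hxlt : ∀ y ∈ insert z X, f x < f y := by
      intro y hy
      rcases Finset.mem_insert.mp hy with hyz | hyX
      · rw [hyz]; exact hBlt z (hA'B hzA)
      · exact hBlt y (hA'B (hXA hyX))
    have hinA' : ∀ y ∈ insert z X, y ∈ A' := by
      intro y hy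
      rcases Finset.mem_insert.mp hy with hyz | hyX
      · rw [hyz]; exact hzA
      · exact hXA hyX
    refine ⟨insert x X, z, fun b => if b = x then c x y0 else χ b,
      fun a b => if b = x then O a x y0 else o a b, ?_, hA'A hzA, ?_, ?_, ?_, ?_⟩
    · intro y hy
      rcases Finset.mem_insert.mp hy with hyx | hyX
      · rw [hyx]; exact hxA
      · exact hA'A (hXA hyX)
    · rw [Finset.card_insert_of_notMem hxX, hXc]
    · intro y hy
      rcases Finset.mem_insert.mp hy with hyx | hyX
      · rw [hyx]; exact hxlt z (Finset.mem_insert_self _ _)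
      · exact hXz y hyX
    · intro y hy w hw hyw
      have hw' : w = x ∨ w ∈ insert z X := by
        rcases Finset.mem_insert.mp hw with h | h
        · right; rw [h]; exact Finset.mem_insert_self _ _
        · rcases Finset.mem_insert.mp h with h | h
          · left; exact h
          · right; exact Finset.mem_insert_of_mem h
      rcases Finset.mem_insert.mp hy with hyx | hyX
      · rcases hw' with hwx | hwX
        · rw [hyx, hwx] at hyw; exact absurd hyw (lt_irrefl _)
        · simp only [hyx, if_true]
          have h1 : cls w = t := (Finset.mem_filter.mp (hinA' w hwX)).2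
          have h2 : cls y0 = t := (Finset.mem_filter.mp hy0).2
          have h3 : cls w = cls y0 := h1.trans h2.symm
          exact congrArg Prod.fst h3
      · have hyne : y ≠ x := fun h => hxX (h ▸ hyX)
        simp only [hyne, if_false]
        rcases hw' with hwx | hwX
        · rw [hwx] at hyw
          exact absurd (lt_trans hyw (hxlt y (Finset.mem_insert_of_mem hyX))) (lt_irrefl _)
        · exact hXχ y hyX w hwX hyw
    · intro a ha b hb y hy hab hby
      have hy' : y = x ∨ y ∈ insert z X := by
        rcases Finset.mem_insert.mp hy with h | h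
        · right; rw [h]; exact Finset.mem_insert_self _ _
        · rcases Finset.mem_insert.mp h with h | h
          · left; exact h
          · right; exact Finset.mem_insert_of_mem h
      rcases Finset.mem_insert.mp hb with hbx | hbX
      · -- `b = x`, so `a` is a previous point
        simp only [hbx, if_true]
        rw [hbx] at hab hby
        have hap : a ∈ prev := by
          rcases Finset.mem_union.mp ha with h | h
          · exact h
          · rcases Finset.mem_insert.mp h with h | h
            · rw [h] at hab; exact absurd hab (lt_irrefl _)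
            · exact absurd (lt_trans hab (hxlt a (Finset.mem_insert_of_mem h))) (lt_irrefl _)
        rcases hy' with h | h
        · rw [h] at hby; exact absurd hby (lt_irrefl _)
        · exact hconst y (hinA' y h) a hap
      · have hbne : b ≠ x := fun h => hxX (h ▸ hbX)
        simp only [hbne, if_false]
        have hxb := hxlt b (Finset.mem_insert_of_mem hbX)
        rcases hy' with h | h
        · rw [h] at hby
          exact absurd (lt_trans hby hxb) (lt_irrefl _)
        · refine hXo a ?_ b hbX y h hab hby
          rcases Finset.mem_union.mp ha with h' | h'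
          · exact Finset.mem_union_left _ (Finset.mem_insert_of_mem h')
          · rcases Finset.mem_insert.mp h' with h'' | h''
            · rw [h'']
              exact Finset.mem_union_left _ (Finset.mem_insert_self _ _)
            · exact Finset.mem_union_right _ h''

end Chains

/-! ### The main theorem -/

/-- Number of greedy steps. -/
def steps (p : ℕ) : ℕ := (p - 1) * (p - 2) + 1

theorem forces_of_card_ge {p n : ℕ} (hp : 2 ≤ p)
    (hn : 2 ^ steps p * (steps p).factorial ≤ n) : Forces p n := by
  classical
  intro P hPn hgen c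
  have hneed : need (steps p) 0 ≤ P.card := by
    have h := need_eq (steps p) 0
    simp only [Nat.factorial_zero, mul_one, zero_add] at h
    rw [h, hPn]; exact hn
  have hcr : ∀ a ∈ P, ∀ b ∈ P, ∀ y ∈ P, key a < key b → key b < key y → cr a b y ≠ 0 := by
    intro a ha b hb y hy hab hby h0
    have h1 : a ≠ b := fun h => by rw [h] at hab; exact lt_irrefl _ hab
    have h2 : a ≠ y := fun h => by rw [h] at hab; exact lt_irrefl _ (hab.trans hby)
    have h3 : b ≠ y := fun h => by rw [h] at hby; exact lt_irrefl _ hby
    exact hgen a ha b hb y hy h1 h2 h3 (collinear_of_cr h1 h0)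
  obtain ⟨X, z, χ, o, hXP, hzP, hXc, hXz, hXχ, hXo⟩ :=
    greedy key (fun _ _ h => key_inj h) P (fun a b y => 0 < cr a b y)
      (fun a b => c s(a, b))
      (by
        intro a ha a' ha' b hb y hy y' hy' hab ha'b hby hby' h1 h2 h3
        have h2' : cr a' b y < 0 :=
          lt_of_le_of_ne (not_lt.mp h2) (hcr a' ha' b hb y hy ha'b hby)
        exact sector hab ha'b hby hby' h1 h2' h3)
      (steps p) 0 ∅ P (by simp) (fun _ h => h) (by simp) (by simp) hneed
  simp only [Finset.empty_union] at hXo
  -- majority colour
  obtain ⟨col, hcol⟩ : ∃ col : Bool, (p - 1) * (p - 1 - 1) / 2 < (X.filter (fun x => χ x = col)).card := by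
    have hsum : (X.filter (fun x => χ x = true)).card + (X.filter (fun x => χ x = false)).card
        = X.card := by
      have h := Finset.card_filter_add_card_filter_not (s := X) (fun x => χ x = true)
      simpa using h
    rw [hXc] at hsum
    have hst : steps p = (p - 1) * (p - 1 - 1) + 1 := by
      unfold steps
      rw [show p - 2 = p - 1 - 1 by omega]
    by_contra hcon
    push Not at hcon
    have h1 := hcon true
    have h2 := hcon false
    have h3 : 2 * ((p - 1) * (p - 1 - 1) / 2) ≤ (p - 1) * (p - 1 - 1) := Nat.mul_div_le _ _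
    omega
  let M := X.filter (fun x => χ x = col)
  have hMX : M ⊆ X := Finset.filter_subset _ _
  have hlast : ∀ x ∈ X, key x < key z := hXz
  have hMP : M ⊆ P := hMX.trans hXP
  obtain ⟨H, hHM, hHc, om, hom⟩ := exists_fan key (fun _ _ h => key_inj h) M o (p - 1)
    (by
      intro a ha b hb y hy hab hby h1 h2
      have haX := hMX ha
      have hbX := hMX hb
      have hyX := hMX hy
      have h1' : 0 < cr a b y :=
        (hXo a haX b hbX y (Finset.mem_insert_of_mem hyX) hab hby).mpr h1
      have h2' : 0 < cr b y z :=
        (hXo b hbX y hyX z (Finset.mem_insert_self _ _) hby (hlast y hyX)).mpr h2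
      have h3 := trans_pos hab hby (hlast y hyX) h1' h2'
      exact (hXo a haX y hyX z (Finset.mem_insert_self _ _) (hab.trans hby) (hlast y hyX)).mp h3)
    (by
      intro a ha b hb y hy hab hby h1 h2 h4
      have haX := hMX ha
      have hbX := hMX hb
      have hyX := hMX hy
      have h1' : ¬ 0 < cr a b y := fun h =>
        h1 ((hXo a haX b hbX y (Finset.mem_insert_of_mem hyX) hab hby).mp h)
      have h2' : ¬ 0 < cr b y z := fun h =>
        h2 ((hXo b hbX y hyX z (Finset.mem_insert_self _ _) hby (hlast y hyX)).mp h)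
      have h1'' : cr a b y < 0 := lt_of_le_of_ne (not_lt.mp h1')
        (hcr a (hXP haX) b (hXP hbX) y (hXP hyX) hab hby)
      have h2'' : cr b y z < 0 := lt_of_le_of_ne (not_lt.mp h2')
        (hcr b (hXP hbX) y (hXP hyX) z hzP hby (hlast y hyX))
      have h3 := trans_neg hab hby (hlast y hyX) h1'' h2''
      have h5 : 0 < cr a y z :=
        (hXo a haX y hyX z (Finset.mem_insert_self _ _) (hab.trans hby) (hlast y hyX)).mpr h4
      linarith)
    hcol
  -- choose exactly `p - 1` points
  obtain ⟨H', hH'H, hH'c⟩ := Finset.exists_subset_card_eq hHc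
  have hH'X : H' ⊆ X := hH'H.trans (hHM.trans hMX)
  have hzH' : z ∉ H' := fun h => lt_irrefl _ (hXz z (hH'X h))
  refine ⟨insert z H', ?_, ?_, ?_, ?_⟩
  · intro x hx
    rcases Finset.mem_insert.mp hx with h | h
    · rw [h]; exact hzP
    · exact hXP (hH'X h)
  · rw [Finset.card_insert_of_notMem hzH', hH'c]; omega
  · have htrip : ∀ a ∈ insert z H', ∀ b ∈ insert z H', ∀ y ∈ insert z H', key a < key b →
        key b < key y → a ∈ H' ∧ b ∈ H' := by
      intro a ha b hb y hy hab hby
      have hby' : key b < key z := by
        rcases Finset.mem_insert.mp hy with h | h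
        · rw [← h]; exact hby
        · exact hby.trans (hXz y (hH'X h))
      constructor
      · rcases Finset.mem_insert.mp ha with h | h
        · rw [h] at hab; exact absurd (hab.trans hby') (lt_irrefl _)
        · exact h
      · rcases Finset.mem_insert.mp hb with h | h
        · rw [h] at hby'; exact absurd hby' (lt_irrefl _)
        · exact h
    apply convexPosition_of_mid _ om
    · intro a ha b hb y hy hab hby hob
      obtain ⟨haH, hbH⟩ := htrip a ha b hb y hy hab hby
      have hy' : y ∈ insert z X := by
        rcases Finset.mem_insert.mp hy with h | h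
        · rw [h]; exact Finset.mem_insert_self _ _
        · exact Finset.mem_insert_of_mem (hH'X h)
      exact (hXo a (hH'X haH) b (hH'X hbH) y hy' hab hby).mpr
        ((hom a (hH'H haH) b (hH'H hbH) hab).mpr hob)
    · intro a ha b hb y hy hab hby hob
      obtain ⟨haH, hbH⟩ := htrip a ha b hb y hy hab hby
      have hy' : y ∈ insert z X := by
        rcases Finset.mem_insert.mp hy with h | h
        · rw [h]; exact Finset.mem_insert_self _ _
        · exact Finset.mem_insert_of_mem (hH'X h)
      have hyP : y ∈ P := by
        rcases Finset.mem_insert.mp hy' with h | h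
        · rw [h]; exact hzP
        · exact hXP h
      have h1 : ¬ 0 < cr a b y := fun h =>
        hob ((hom a (hH'H haH) b (hH'H hbH) hab).mp
          ((hXo a (hH'X haH) b (hH'X hbH) y hy' hab hby).mp h))
      exact lt_of_le_of_ne (not_lt.mp h1)
        (hcr a (hXP (hH'X haH)) b (hXP (hH'X hbH)) y hyP hab hby)
  · refine ⟨col, ?_⟩
    have hmain : ∀ a ∈ insert z H', ∀ b ∈ insert z H', key a < key b → c s(a, b) = col := by
      intro a ha b hb hab
      have haH : a ∈ H' := by
        rcases Finset.mem_insert.mp ha with h | h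
        · rcases Finset.mem_insert.mp hb with h' | h'
          · rw [h, h'] at hab; exact absurd hab (lt_irrefl _)
          · rw [h] at hab; exact absurd (hab.trans (hXz b (hH'X h'))) (lt_irrefl _)
        · exact h
      have hb' : b ∈ insert z X := by
        rcases Finset.mem_insert.mp hb with h | h
        · rw [h]; exact Finset.mem_insert_self _ _
        · exact Finset.mem_insert_of_mem (hH'X h)
      have h1 := hXχ a (hH'X haH) b hb' hab
      have h2 : χ a = col := (Finset.mem_filter.mp (hHM (hH'H haH))).2
      rw [← h2]; exact h1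
    intro a ha b hb hab
    rcases lt_trichotomy (key a) (key b) with h | h | h
    · exact hmain a ha b hb h
    · exact absurd (key_inj h) hab
    · rw [Sym2.eq_swap]; exact hmain b hb a ha h

/-! ### Sanity checks for the definitions -/

/-- Our definition of convex position is Mathlib's convex independence. -/
theorem convexPosition_iff (S : Finset Plane) :
    ConvexPosition S ↔ ConvexIndependent ℝ (Subtype.val : {x // x ∈ (S : Set Plane)} → Plane) :=
  (convexIndependent_set_iff_notMem_convexHull_sdiff (s := (S : Set Plane))).symm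

/-- If `n` points suffice then so do `n + 1` points. -/
theorem Forces.succ {p n : ℕ} (h : Forces p n) : Forces p (n + 1) := by
  intro P hP hgen c
  obtain ⟨Q, hQP, hQ⟩ := Finset.exists_subset_card_eq (show n ≤ P.card by omega)
  obtain ⟨S, hS, hc, hconv, hmono⟩ := h Q hQ
    (fun a ha b hb y hy => hgen a (hQP ha) b (hQP hb) y (hQP hy)) c
  exact ⟨S, hS.trans hQP, hc, hconv, hmono⟩

/-- **Main result.** For every `p ≥ 3` the number `g p` exists, and with
`T = (p - 1) (p - 2) + 1` it is at most `2 ^ T * T!`; in particular
`logb 2 (g p) ≤ 3 * p ^ 2 * logb 2 p`. -/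
theorem result (p : ℕ) (hp : 3 ≤ p) :
    Forces p (g p) ∧
    g p ≤ 2 ^ ((p - 1) * (p - 2) + 1) * ((p - 1) * (p - 2) + 1).factorial ∧
    Real.logb 2 (g p) ≤ 3 * (p : ℝ) ^ 2 * Real.logb 2 p := by
  have hF : Forces p (2 ^ ((p - 1) * (p - 2) + 1) * ((p - 1) * (p - 2) + 1).factorial) :=
    forces_of_card_ge (by omega) (le_refl _)
  have hmem : Forces p (g p) := Nat.sInf_mem (s := {n | Forces p n}) ⟨_, hF⟩
  have hle : g p ≤ 2 ^ ((p - 1) * (p - 2) + 1) * ((p - 1) * (p - 2) + 1).factorial :=
    Nat.sInf_le (s := {n | Forces p n}) hF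
  refine ⟨hmem, hle, ?_⟩
  -- `T ≤ p ^ 2`
  have hT : (p - 1) * (p - 2) + 1 ≤ p ^ 2 := by
    obtain ⟨q, rfl⟩ : ∃ q, p = q + 3 := ⟨p - 3, by omega⟩
    have h1 : q + 3 - 1 = q + 2 := by omega
    have h2 : q + 3 - 2 = q + 1 := by omega
    rw [h1, h2]
    nlinarith
  set T := (p - 1) * (p - 2) + 1 with hTdef
  have h1 : g p ≤ 2 ^ (p ^ 2) * (p ^ 2) ^ (p ^ 2) := by
    calc g p ≤ 2 ^ T * T.factorial := hle
      _ ≤ 2 ^ T * T ^ T := Nat.mul_le_mul_left _ (Nat.factorial_le_pow T)
      _ ≤ 2 ^ (p ^ 2) * (p ^ 2) ^ (p ^ 2) := by
          apply Nat.mul_le_mul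
          · exact Nat.pow_le_pow_right (by norm_num) hT
          · calc T ^ T ≤ (p ^ 2) ^ T := Nat.pow_le_pow_left hT T
              _ ≤ (p ^ 2) ^ (p ^ 2) := Nat.pow_le_pow_right (by positivity) hT
  have hpR : (3 : ℝ) ≤ p := by exact_mod_cast hp
  have hlog1 : 1 ≤ Real.logb 2 p := by
    rw [Real.le_logb_iff_rpow_le (by norm_num) (by linarith)]
    rw [Real.rpow_one]; linarith
  rcases Nat.eq_zero_or_pos (g p) with h0 | hpos
  · rw [h0]
    simp only [Nat.cast_zero, Real.logb_zero]
    positivity
  · have h2 : (g p : ℝ) ≤ 2 ^ (p ^ 2) * ((p : ℝ) ^ 2) ^ (p ^ 2) := by exact_mod_cast h1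
    have h3 : Real.logb 2 (g p) ≤ Real.logb 2 (2 ^ (p ^ 2) * ((p : ℝ) ^ 2) ^ (p ^ 2)) :=
      Real.logb_le_logb_of_le (by norm_num) (by exact_mod_cast hpos) h2
    have h4 : Real.logb 2 (2 ^ (p ^ 2) * ((p : ℝ) ^ 2) ^ (p ^ 2))
        = (p : ℝ) ^ 2 + (p : ℝ) ^ 2 * (2 * Real.logb 2 p) := by
      rw [Real.logb_mul (by positivity) (by positivity), Real.logb_pow, Real.logb_pow,
        Real.logb_pow, Real.logb_self_eq_one (by norm_num)]
      push_cast
      ring
    rw [h4] at h3
    nlinarith [sq_nonneg (p : ℝ), mul_nonneg (sq_nonneg (p : ℝ)) (sub_nonneg.mpr hlog1)]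

end Pool.Agent.Results.MP_6c3374_co.PolyUpper
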