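import Pool.Agent.H39.ST.Lower
import Pool.Agent.H39.QT.Ana

namespace Pool.Agent.Results.MP_6c3374_co.FewLabels

open Pool.Agent.Results.MP_6c3374_co.PolyUpper Pool.Agent.H39.ST Pool.Agent.H39.QT

/-- If `n` points suffice then more points suffice. -/
theorem forcesIn_mono {k p n n' : ℕ} (h : ForcesIn k p n) (hn : n ≤ n') : ForcesIn k p n' :=
  fun P hP hc c => h P hP (hn.trans hc) c

/-- **Main result.** Let `gS k p` be the function `g` of the problem for the point sets that have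
an oriented splitting tree with `k` labels. For every fixed `k ≥ 1` its logarithm has the linear
order: `(p - 2) / 2 < log₂ (gS k p) ≤ 8 k p` for all `p ≥ 3`; but the constant is unbounded
as `k` grows: `log₂ (gS k p) ≥ c * sqrt (log₂ k / log₂ (log₂ k)) * p` for every `k ≥ 3` and
all large `p`, with an absolute constant `c > 0`. -/
theorem result :
    (∀ k p : ℕ, 1 ≤ k → 3 ≤ p → ForcesIn k p (gS k p) ∧
      ((p : ℝ) - 2) / 2 < Real.logb 2 (gS k p) ∧ Real.logb 2 (gS k p) ≤ 8 * k * p) ∧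
    ∃ c : ℝ, 0 < c ∧ ∀ k : ℕ, 3 ≤ k → ∃ p₀ : ℕ, ∀ p ≥ p₀,
      c * Real.sqrt (Real.logb 2 k / Real.logb 2 (Real.logb 2 k)) * p ≤
        Real.logb 2 (gS k p) := by
  have hex : ∀ k p : ℕ, 1 ≤ p → ForcesIn k p (2 ^ (8 * k * (p - 1)) + 1) := fun k p hp =>
    forcesIn_of_lt hp (Nat.lt_succ_self _)
  have hmem : ∀ k p : ℕ, 1 ≤ p → ForcesIn k p (gS k p) := fun k p hp =>
    Nat.sInf_mem (s := {n | ForcesIn k p n}) ⟨_, hex k p hp⟩
  have hlow : ∀ k p m : ℕ, 1 ≤ p → ¬ ForcesIn k p (2 ^ m) → (m : ℝ) < Real.logb 2 (gS k p) := by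
    intro k p m hp hF
    have h1 : 2 ^ m < gS k p := by
      by_contra hcon
      exact hF (forcesIn_mono (hmem k p hp) (not_lt.mp hcon))
    have h2 : (2 : ℝ) ^ m < (gS k p : ℝ) := by exact_mod_cast h1
    have h3 := Real.logb_lt_logb (b := 2) (by norm_num) (by positivity) h2
    rwa [Real.logb_pow, Real.logb_self_eq_one (by norm_num), mul_one] at h3
  have hlin : ∀ k p : ℕ, 1 ≤ k → 3 ≤ p → ((p : ℝ) - 2) / 2 < Real.logb 2 (gS k p) := by
    intro k p hk hp
    have h1 := hlow k p ((p - 1) / 2) (by omega) (lower_all hk hp)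
    have h2 : (p : ℝ) ≤ 2 * (((p - 1) / 2 : ℕ) : ℝ) + 2 := by
      exact_mod_cast (by omega : p ≤ 2 * ((p - 1) / 2) + 2)
    linarith
  refine ⟨fun k p hk hp => ⟨hmem k p (by omega), hlin k p hk hp, ?_⟩, 1 / 18000, by norm_num,
    fun k hk => ?_⟩
  · have h1 : gS k p ≤ 2 ^ (8 * k * p) := by
      have h2 : gS k p ≤ 2 ^ (8 * k * (p - 1)) + 1 :=
        Nat.sInf_le (s := {n | ForcesIn k p n}) (hex k p (by omega))
      have h3 : 8 * k * (p - 1) + 1 ≤ 8 * k * p := by
        obtain ⟨q, rfl⟩ : ∃ q, p = q + 1 := ⟨p - 1, by omega⟩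
        rw [Nat.add_sub_cancel, Nat.mul_succ]
        omega
      have h4 : 1 ≤ 2 ^ (8 * k * (p - 1)) := Nat.one_le_two_pow
      calc gS k p ≤ 2 ^ (8 * k * (p - 1)) + 1 := h2
        _ ≤ 2 ^ (8 * k * (p - 1) + 1) := by rw [pow_succ]; omega
        _ ≤ 2 ^ (8 * k * p) := Nat.pow_le_pow_right (by norm_num) h3
    have hpos : 0 < gS k p := by
      by_contra hcon
      have h0 : gS k p = 0 := by omega
      have := hmem k p (by omega)
      rw [h0] at this
      exact lower_all hk hp (forcesIn_mono this (Nat.zero_le _))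
    have h5 : (gS k p : ℝ) ≤ (2 : ℝ) ^ (8 * k * p) := by exact_mod_cast h1
    have h6 := Real.logb_le_logb_of_le (b := 2) (by norm_num) (by exact_mod_cast hpos) h5
    rw [Real.logb_pow, Real.logb_self_eq_one (by norm_num), mul_one] at h6
    push_cast at h6
    exact h6
  · obtain ⟨hx0, hx⟩ := exists_K hk
    set x := Real.sqrt (Real.logb 2 k / Real.logb 2 (Real.logb 2 k))
    rcases hx with hlt | ⟨K, hK1, hKx, hrange⟩
    · refine ⟨3, fun p hp => ?_⟩
      have hpR : (3 : ℝ) ≤ (p : ℝ) := by exact_mod_cast hp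
      have h1 := hlin k p (by omega) hp
      have h2 : 1 / 18000 * x * (p : ℝ) ≤ 1 / 18000 * 3000 * p :=
        mul_le_mul_of_nonneg_right (by linarith) (by positivity)
      linarith
    · obtain ⟨p₀, h⟩ := lower_big (k := k) hK1 (le_trans (Nat.pow_le_pow_right (by norm_num)
        (Nat.le_add_right _ 3)) hrange)
      refine ⟨max p₀ 1, fun p hp => ?_⟩
      have h1 := hlow k p (K * p) (le_trans (le_max_right _ _) hp)
        (h p (le_trans (le_max_left _ _) hp))
      push_cast at h1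
      have h2 : 1 / 18000 * x * (p : ℝ) ≤ K * p :=
        mul_le_mul_of_nonneg_right (by linarith) (Nat.cast_nonneg _)
      linarith

end Pool.Agent.Results.MP_6c3374_co.FewLabels
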