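import Pool.Agent.H39.QT.Iter3
import Pool.Agent.H39.QT.Ana
import Pool.Agent.H39.NotForces

namespace Pool.Agent.Results.MP_6c3374_co.SqrtLogLower

open Pool.Agent.H39 Pool.Agent.H39.QT Pool.Agent.Results.MP_6c3374_co.PolyUpper

/-- An explicit range of `p` in which `g p > 2 ^ (K * p)`. -/
theorem lower {K : ℕ} (hK : 1 ≤ K) (p : ℕ)
    (hp : 2 ^ (544000 * K ^ 2 * (Nat.log 2 K + 6) + 3) ≤ p) : 2 ^ (K * p) < g p := by
  obtain ⟨r, k, hr, hk, hg, hrk, hkr, hkb⟩ := good_ratio3 (K := 4 * K) (by omega)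
  have hlog : Nat.log 2 (4 * K) = Nat.log 2 K + 2 := by
    have e : 4 * K = K * 2 * 2 := by ring
    rw [e, Nat.log_mul_base (by norm_num) (by omega), Nat.log_mul_base (by norm_num) (by omega)]
  have hpk : 4 * k + 3 ≤ p := by
    have h1 : k ≤ 2 ^ (544000 * K ^ 2 * (Nat.log 2 K + 6)) := by
      refine (hkr.trans hkb).trans (le_of_eq ?_)
      rw [hlog]
      congr 1
      ring
    have h2 : 2 ^ (544000 * K ^ 2 * (Nat.log 2 K + 6) + 3) =
        8 * 2 ^ (544000 * K ^ 2 * (Nat.log 2 K + 6)) := by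
      rw [pow_add]; ring
    rw [h2] at hp
    omega
  obtain ⟨m, hm⟩ : ∃ m, m = (p - 1) / (2 * k) := ⟨_, rfl⟩
  have h1 : m * (2 * k) ≤ p - 1 := by rw [hm]; exact Nat.div_mul_le_self _ _
  have h2 : p - 1 < (m + 1) * (2 * k) := by
    have := Nat.lt_div_mul_add (a := p - 1) (b := 2 * k) (by omega)
    rw [← hm] at this
    linarith
  have hm1 : 1 ≤ m := by
    by_contra hcon
    have : m = 0 := by omega
    rw [this] at h2
    omega
  have hgm := good_mul hg m hm1
  have h3 : 2 * (m * k) + 1 ≤ p := by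
    have : m * (2 * k) = 2 * (m * k) := by ring
    omega
  have h4 : ¬ g p ≤ 2 ^ (m * r) := fun hcon =>
    not_forces hgm h3 (Nat.mul_pos hm1 hk) hcon (PolyUpper.result p (by omega)).1
  have h5 : K * p ≤ m * r := by
    have h6 : m * (4 * K * k) ≤ m * r := Nat.mul_le_mul_left _ hrk
    have h7 : p ≤ 2 * (m * k) + 2 * k := by
      have : (m + 1) * (2 * k) = 2 * (m * k) + 2 * k := by ring
      omega
    have h8 : K * p ≤ m * (4 * K * k) := by
      have e : m * (4 * K * k) = K * (4 * (m * k)) := by ring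
      rw [e]
      have h9 : k ≤ m * k := Nat.le_mul_of_pos_left k hm1
      exact Nat.mul_le_mul_left _ (by omega)
    exact h8.trans h6
  calc 2 ^ (K * p) ≤ 2 ^ (m * r) := Nat.pow_le_pow_right (by norm_num) h5
    _ < g p := by omega

/-- The linear lower bound. -/
theorem lower_one {p : ℕ} (hp : 3 ≤ p) : ((p : ℝ) - 2) / 2 ≤ Real.logb 2 (g p) := by
  have h1 : 1 ≤ (p - 1) / 2 := by omega
  have h2 := good_mul good_one ((p - 1) / 2) h1
  rw [mul_one] at h2
  have h3 : ¬ g p ≤ 2 ^ ((p - 1) / 2) := fun hcon =>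
    not_forces h2 (by omega) h1 hcon (PolyUpper.result p hp).1
  have h4 : (2 : ℝ) ^ ((p - 1) / 2) ≤ (g p : ℝ) := by exact_mod_cast (not_le.mp h3).le
  have h5 := Real.logb_le_logb_of_le (b := 2) (by norm_num) (by positivity) h4
  rw [Real.logb_pow, Real.logb_self_eq_one (by norm_num), mul_one] at h5
  have h6 : (p : ℝ) ≤ 2 * (((p - 1) / 2 : ℕ) : ℝ) + 2 := by
    exact_mod_cast (by omega : p ≤ 2 * ((p - 1) / 2) + 2)
  linarith

/-- **Main result.** There is a constant `c > 0` with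
`log₂ (g p) ≥ c * p * sqrt (log₂ p / log₂ (log₂ p))` for all `p ≥ 3`. -/
theorem result : ∃ c : ℝ, 0 < c ∧ ∀ p : ℕ, 3 ≤ p →
    c * p * Real.sqrt (Real.logb 2 p / Real.logb 2 (Real.logb 2 p)) ≤ Real.logb 2 (g p) := by
  refine ⟨1 / 18000, by norm_num, fun p hp => ?_⟩
  have hpR : (3 : ℝ) ≤ (p : ℝ) := by exact_mod_cast hp
  obtain ⟨hx0, hx⟩ := exists_K hp
  set x := Real.sqrt (Real.logb 2 p / Real.logb 2 (Real.logb 2 p))
  rcases hx with hlt | ⟨K, hK1, hKx, hrange⟩
  · -- the linear bound suffices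
    have h1 := lower_one hp
    have h2 : 1 / 18000 * (p : ℝ) * x ≤ 1 / 18000 * p * 3000 :=
      mul_le_mul_of_nonneg_left hlt.le (by positivity)
    linarith
  · have hlow := lower hK1 p hrange
    have h1 : (2 : ℝ) ^ (K * p) ≤ (g p : ℝ) := by exact_mod_cast hlow.le
    have h2 := Real.logb_le_logb_of_le (b := 2) (by norm_num) (by positivity) h1
    rw [Real.logb_pow, Real.logb_self_eq_one (by norm_num), mul_one] at h2
    push_cast at h2
    refine le_trans ?_ h2
    have h4 : 1 / 18000 * (p : ℝ) * x = x / 18000 * p := by ring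
    rw [h4]
    exact mul_le_mul_of_nonneg_right hKx (by linarith)

end Pool.Agent.Results.MP_6c3374_co.SqrtLogLower
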